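import Pool.Agent.Lib.Helper29.HFG.Bridge

/-!
# An HFG Hopf algebra whose antipode is not invertible

The example is the full linear dual of the free Hopf algebra of Takeuchi generated by the coalgebra
of matrices of size nine, realised as the space `RT ℂ` of all functions on the words in the letters
`x^(k)_{ij}` that respect the relations of the free Hopf algebra, with the topology of pointwise
convergence.
-/

set_option autoImplicit false

namespace Pool.Agent.Results.MP_a6183d_an.AntipodeNotInvertible

open Pool.Agent.Lib.Helper29.HFG

/-- the letter `x^(0)_{00}` -/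
def x0 : Lt := (0, 0, 0)

lemma normal_single (x : Lt) : Normal [x] := by
  rintro ⟨o, ho⟩
  have h := congrArg List.length ho
  unfold Occ.word Occ.rep at h
  simp only [List.length_append, List.length_cons, List.length_nil] at h
  omega

/-- the element of the example that is killed by the antipode -/
noncomputable def f0 : RT ℂ := dl [x0]

lemma f0_apply : f0.1 [x0] = 1 := by
  unfold f0
  rw [dl_normal (normal_single x0), if_pos rfl]

lemma f0_ne_zero : f0 ≠ 0 := by
  intro h
  have h1 := f0_apply
  rw [h] at h1
  exact zero_ne_one h1

lemma mem_levels (o : Occ) (l l' : Ix) (h : ∀ k ∈ shp (o.rep l), 1 ≤ k) :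
    ∀ k ∈ shp (o.rep l'), 1 ≤ k := by
  rw [shp_rep] at h ⊢
  exact h

/-- the element vanishes at the words in letters of positive level -/
lemma f0_vanish (q : List Lt) (hq : ∀ k ∈ shp q, 1 ≤ k) : f0.1 q = 0 := by
  refine rep_unique (f := f0.1) (g := fun _ => (0 : ℂ)) {q | ∀ k ∈ shp q, 1 ≤ k} ?_ ?_ ?_ ?_ ?_ q hq
  · intro o ho k hk
    refine ho k ?_
    unfold Occ.word
    rw [shp_rep]
    unfold Occ.del at hk
    rw [shp_append, List.mem_append] at hk
    rw [List.mem_append, List.mem_cons, List.mem_cons]
    tauto
  · intro o ho l
    exact mem_levels o (aa o.k) l ho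
  · intro o _
    exact f0.2.eq_rhs o
  · intro o _
    simp [rhs]
  · intro q hq hn
    unfold f0
    rw [dl_normal hn, if_neg]
    rintro rfl
    have := hq 0 (by simp [shp, x0])
    omega

lemma shp_sgw (q : List Lt) : ∀ k ∈ shp (sgw q), 1 ≤ k := by
  intro k hk
  unfold shp sgw at hk
  rw [List.mem_map] at hk
  obtain ⟨y, hy, rfl⟩ := hk
  rw [List.mem_reverse, List.mem_map] at hy
  obtain ⟨z, _, rfl⟩ := hy
  exact Nat.succ_le_succ (Nat.zero_le _)

/-- There is a complete locally convex algebra `H` that is holomorphically finitely generated and
carries a structure of Hopf algebra in the category of complete locally convex spaces, with the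
complete projective tensor product, whose antipode `S` is not injective, hence not invertible. -/
theorem result : ∃ (H : Type) (_ : Ring H) (_ : Algebra ℂ H) (_ : UniformSpace H) (S : H → H),
    IsHopfAntipode S ∧ IsHolFG H ∧ ¬ Function.Injective S := by
  refine ⟨RT ℂ, inferInstance, inferInstance, inferInstance, fun a => antiH a,
    isHopfAntipode_example, isHolFG_example, fun h => ?_⟩
  have h1 : antiH f0 = antiH 0 := by
    apply RT.ext
    funext q
    rw [antiH_apply, f0_vanish _ (shp_sgw q)]
    rfl
  exact f0_ne_zero (h h1)

end Pool.Agent.Results.MP_a6183d_an.AntipodeNotInvertible
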